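import Pool.Agent.Run7.h987.SE.Iface

set_option autoImplicit false

open MeasureTheory Set Filter Topology
open Pool.Agent.Run7.h987.SE

namespace Run7.h554.SE

open Classical in
/-- the share of `S` which lies in `A` -/
noncomputable def rho {Γ : Type} (A : Set Γ) (S : Finset Γ) : ℝ :=
  ((S.filter (fun h => h ∈ A)).card : ℝ) / S.card

lemma rho_nonneg {Γ : Type} (A : Set Γ) (S : Finset Γ) : 0 ≤ rho A S := by
  unfold rho; positivity

lemma rho_le_one {Γ : Type} (A : Set Γ) (S : Finset Γ) : rho A S ≤ 1 := by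
  classical
  unfold rho
  apply div_le_one_of_le₀ _ (by positivity)
  have h := (Nat.cast_le (α := ℝ)).2 (Finset.card_filter_le S (fun h => h ∈ A))
  convert h

lemma rho_univ {Γ : Type} (S : Finset Γ) (hS : S ≠ ∅) : rho (univ : Set Γ) S = 1 := by
  unfold rho
  have : (S.card : ℝ) ≠ 0 := by
    have := Finset.card_pos.2 (Finset.nonempty_iff_ne_empty.2 hS)
    positivity
  simp [this]

lemma rho_union {Γ : Type} (A B : Set Γ) (h : Disjoint A B) (S : Finset Γ) :
    rho (A ∪ B) S = rho A S + rho B S := by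
  classical
  unfold rho
  rw [← add_div]
  congr 1
  have h1 : (S.filter (fun h => h ∈ A ∪ B)) = S.filter (fun h => h ∈ A) ∪ S.filter (fun h => h ∈ B) := by
    ext x; simp [and_or_left]
  have h2 : Disjoint (S.filter (fun h => h ∈ A)) (S.filter (fun h => h ∈ B)) := by
    rw [Finset.disjoint_left]
    intro x hx hy
    simp only [Finset.mem_filter] at hx hy
    exact Set.disjoint_left.1 h hx.2 hy.2
  have h3 := Finset.card_union_of_disjoint h2
  rw [← h1] at h3
  have h4 := congrArg (Nat.cast : ℕ → ℝ) h3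
  rw [Nat.cast_add] at h4
  convert h4

/-- translation of finite sets -/
def tr {Γ : Type} [Group Γ] [DecidableEq Γ] (g : Γ) : Finset Γ ≃ Finset Γ where
  toFun S := S.image fun h => g * h
  invFun S := S.image fun h => g⁻¹ * h
  left_inv S := by
    ext x
    simp
  right_inv S := by
    ext x
    simp

lemma rho_tr {Γ : Type} [Group Γ] [DecidableEq Γ] (g : Γ) (A : Set Γ) (S : Finset Γ) :
    rho ((fun h => g * h) '' A) (tr g S) = rho A S := by
  classical
  unfold rho
  have hinj : Function.Injective (fun h : Γ => g * h) := mul_right_injective g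
  have h1 : (tr g S).card = S.card := Finset.card_image_of_injective _ hinj
  have h2 : ((tr g S).filter (fun h => h ∈ (fun h => g * h) '' A)).card
      = (S.filter (fun h => h ∈ A)).card := by
    rw [← Finset.card_image_of_injective (S.filter (fun h => h ∈ A)) hinj]
    congr 1
    ext x
    simp only [tr, Equiv.coe_fn_mk, Finset.mem_filter, Finset.mem_image, Set.mem_image]
    constructor
    · rintro ⟨⟨a, ha, rfl⟩, ⟨b, hb, hab⟩⟩
      have : b = a := mul_left_cancel hab
      subst this
      exact ⟨b, ⟨ha, hb⟩, rfl⟩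
    · rintro ⟨a, ⟨ha, hb⟩, rfl⟩
      exact ⟨⟨a, ha, rfl⟩, ⟨a, hb, rfl⟩⟩
  rw [h1]
  congr 1
  convert congrArg (Nat.cast : ℕ → ℝ) h2

/-- the squares of the norm -/
noncomputable def Nc {Γ : Type} (c : Finset Γ →₀ ℝ) : ℝ := ∑ S ∈ c.support, c S ^ 2

/-- the unnormalised mean -/
noncomputable def Q {Γ : Type} (c : Finset Γ →₀ ℝ) (A : Set Γ) : ℝ :=
  ∑ S ∈ c.support, c S ^ 2 * rho A S

lemma Q_nonneg {Γ : Type} (c : Finset Γ →₀ ℝ) (A : Set Γ) : 0 ≤ Q c A :=
  Finset.sum_nonneg fun S _ => mul_nonneg (sq_nonneg _) (rho_nonneg A S)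

lemma Q_le {Γ : Type} (c : Finset Γ →₀ ℝ) (A : Set Γ) : Q c A ≤ Nc c :=
  Finset.sum_le_sum fun S _ => mul_le_of_le_one_right (sq_nonneg _) (rho_le_one A S)

lemma Q_univ {Γ : Type} (c : Finset Γ →₀ ℝ) (h : c ∅ = 0) : Q c univ = Nc c := by
  unfold Q Nc
  apply Finset.sum_congr rfl
  intro S hS
  rw [rho_univ S, mul_one]
  rintro rfl
  simp [h] at hS

lemma Q_union {Γ : Type} (c : Finset Γ →₀ ℝ) (A B : Set Γ) (h : Disjoint A B) :
    Q c (A ∪ B) = Q c A + Q c B := by
  unfold Q
  rw [← Finset.sum_add_distrib]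
  apply Finset.sum_congr rfl
  intro S _
  rw [rho_union A B h]
  ring

lemma Q_inv {Γ : Type} [Group Γ] [DecidableEq Γ] (c : Finset Γ →₀ ℝ) (g : Γ) (A : Set Γ) :
    |Q c ((fun h => g * h) '' A) - Q c A| ≤
      Real.sqrt (∑ᶠ S : Finset Γ, (c (S.image fun h => g * h) - c S) ^ 2) *
        Real.sqrt (4 * Nc c) := by
  classical
  set T : Finset (Finset Γ) := c.support ∪ c.support.image (tr g).symm with hT
  have hT1 : ∀ f : Finset Γ → ℝ, (∀ S, c S = 0 → f S = 0) → ∑ S ∈ c.support, f S = ∑ S ∈ T, f S := by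
    intro f hf
    apply Finset.sum_subset Finset.subset_union_left
    intro S _ hS
    apply hf
    simpa using hS
  have hT2 : ∀ f : Finset Γ → ℝ, (∀ S, c S = 0 → f S = 0) →
      ∑ S ∈ c.support, f S = ∑ S ∈ T, f (tr g S) := by
    intro f hf
    have h1 : ∑ S ∈ c.support, f S = ∑ S ∈ c.support.image (tr g).symm, f (tr g S) := by
      rw [Finset.sum_image (fun x _ y _ h => (tr g).symm.injective h)]
      simp
    rw [h1]
    apply Finset.sum_subset Finset.subset_union_right
    intro S _ hS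
    apply hf
    by_contra h
    apply hS
    rw [Finset.mem_image]
    exact ⟨tr g S, by simpa using h, by simp⟩
  have e1 : Q c ((fun h => g * h) '' A) = ∑ S ∈ T, c (tr g S) ^ 2 * rho A S := by
    unfold Q
    rw [hT2 (fun S => c S ^ 2 * rho ((fun h => g * h) '' A) S) (fun S h => by simp [h])]
    simp only [rho_tr]
  have e2 : Q c A = ∑ S ∈ T, c S ^ 2 * rho A S := by
    unfold Q
    rw [hT1 (fun S => c S ^ 2 * rho A S) (fun S h => by simp [h])]
  have e3 : Nc c = ∑ S ∈ T, c S ^ 2 := hT1 (fun S => c S ^ 2) (fun S h => by simp [h])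
  have e4 : Nc c = ∑ S ∈ T, c (tr g S) ^ 2 := hT2 (fun S => c S ^ 2) (fun S h => by simp [h])
  have e5 : (∑ᶠ S : Finset Γ, (c (S.image fun h => g * h) - c S) ^ 2)
      = ∑ S ∈ T, (c (tr g S) - c S) ^ 2 := by
    apply finsum_eq_sum_of_support_subset
    intro S hS
    rw [Function.mem_support] at hS
    by_contra h
    apply hS
    have h1 : c S = 0 := by
      by_contra h1
      apply h
      rw [hT]
      simp [h1]
    have h2 : c (tr g S) = 0 := by
      by_contra h2
      apply h
      rw [hT]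
      simp only [Finset.coe_union, Set.mem_union, Finset.mem_coe]
      right
      rw [Finset.mem_image]
      exact ⟨tr g S, by simpa using h2, by simp⟩
    have h3 : c (S.image fun h => g * h) = 0 := h2
    rw [h3, h1]
    simp
  rw [e1, e2, e5, ← Finset.sum_sub_distrib]
  calc |∑ S ∈ T, (c (tr g S) ^ 2 * rho A S - c S ^ 2 * rho A S)|
      ≤ ∑ S ∈ T, |c (tr g S) ^ 2 * rho A S - c S ^ 2 * rho A S| := Finset.abs_sum_le_sum_abs _ _
    _ ≤ ∑ S ∈ T, |c (tr g S) - c S| * |c (tr g S) + c S| := by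
        apply Finset.sum_le_sum
        intro S _
        have : c (tr g S) ^ 2 * rho A S - c S ^ 2 * rho A S
            = (c (tr g S) - c S) * (c (tr g S) + c S) * rho A S := by ring
        rw [this, abs_mul, abs_mul]
        apply mul_le_of_le_one_right (by positivity)
        rw [abs_of_nonneg (rho_nonneg A S)]
        exact rho_le_one A S
    _ ≤ Real.sqrt (∑ S ∈ T, |c (tr g S) - c S| ^ 2) * Real.sqrt (∑ S ∈ T, |c (tr g S) + c S| ^ 2) :=
        Real.sum_mul_le_sqrt_mul_sqrt _ _ _
    _ ≤ Real.sqrt (∑ S ∈ T, (c (tr g S) - c S) ^ 2) * Real.sqrt (4 * Nc c) := by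
        simp only [sq_abs]
        apply mul_le_mul_of_nonneg_left _ (Real.sqrt_nonneg _)
        apply Real.sqrt_le_sqrt
        have : 4 * Nc c = ∑ S ∈ T, (2 * c (tr g S) ^ 2 + 2 * c S ^ 2) := by
          rw [Finset.sum_add_distrib, ← Finset.mul_sum, ← Finset.mul_sum, ← e3, ← e4]
          ring
        rw [this]
        apply Finset.sum_le_sum
        intro S _
        nlinarith [sq_nonneg (c (tr g S) - c S)]

theorem t_CORE : P_CORE := by
  intro Γ _ _ hna
  by_contra hcon
  push Not at hcon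
  apply hna
  have hex : ∀ i : Finset Γ × ℕ, ∃ c : Finset Γ →₀ ℝ, c ∅ = 0 ∧ 0 < Nc c ∧
      ∀ γ ∈ i.1, (∑ᶠ S : Finset Γ, (c (S.image fun h => γ * h) - c S) ^ 2) ≤
        (1 / ((i.2 : ℝ) + 1)) * Nc c := by
    rintro ⟨F, n⟩
    obtain ⟨c, hc0, hc⟩ := hcon (insert 1 F) (1 / ((n : ℝ) + 1)) (by positivity)
    refine ⟨c, hc0, ?_, ?_⟩
    · have h := hc 1 (Finset.mem_insert_self _ _)
      simp only [one_mul, Finset.image_id', sub_self, ne_eq, OfNat.ofNat_ne_zero, not_false_eq_true,
        zero_pow, finsum_zero] at h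
      have h2 : (0 : ℝ) < 1 / ((n : ℝ) + 1) := by positivity
      exact (mul_pos_iff_of_pos_left h2).1 h
    · intro γ hγ
      exact (hc γ (Finset.mem_insert_of_mem hγ)).le
  choose c hc0 hcN hcF using hex
  set q : Finset Γ × ℕ → Set Γ → ℝ := fun i A => Q (c i) A / Nc (c i) with hq
  have hq0 : ∀ i A, 0 ≤ q i A := fun i A => div_nonneg (Q_nonneg _ _) (hcN i).le
  have hq1 : ∀ i A, q i A ≤ 1 := fun i A => div_le_one_of_le₀ (Q_le _ _) (hcN i).le
  set U : Ultrafilter (Finset Γ × ℕ) := Ultrafilter.of atTop with hU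
  have hUle : (U : Filter (Finset Γ × ℕ)) ≤ atTop := Ultrafilter.of_le _
  have hlim : ∀ A : Set Γ, ∃ x : ℝ, Tendsto (fun i => q i A) U (𝓝 x) := by
    intro A
    obtain ⟨x, -, hx⟩ := (isCompact_Icc (a := (0 : ℝ)) (b := 1)).ultrafilter_le_nhds
      (U.map (fun i => q i A)) (by
        rw [le_principal_iff, Ultrafilter.coe_map, Filter.mem_map]
        exact Filter.univ_mem' fun i => ⟨hq0 i A, hq1 i A⟩)
    exact ⟨x, hx⟩
  choose m hm using hlim
  refine ⟨m, ?_, ?_, ?_, ?_⟩
  · intro A
    exact ge_of_tendsto (hm A) (Eventually.of_forall fun i => hq0 i A)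
  · have h1 : ∀ i, q i univ = 1 := by
      intro i
      simp only [hq]
      rw [Q_univ _ (hc0 i)]
      exact div_self (hcN i).ne'
    have h2 := hm univ
    simp only [h1] at h2
    exact tendsto_nhds_unique h2 tendsto_const_nhds
  · intro A B hAB
    have h1 : ∀ i, q i (A ∪ B) = q i A + q i B := by
      intro i
      simp only [hq]
      rw [Q_union _ _ _ hAB, add_div]
    have h2 := hm (A ∪ B)
    simp only [h1] at h2
    exact tendsto_nhds_unique h2 ((hm A).add (hm B))
  · intro g A
    have h1 : Tendsto (fun i => q i ((fun h => g * h) '' A) - q i A) U (𝓝 0) := by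
      have hb : ∀ᶠ i : Finset Γ × ℕ in U, ‖q i ((fun h => g * h) '' A) - q i A‖ ≤
          2 * Real.sqrt (1 / ((i.2 : ℝ) + 1)) := by
        apply hUle
        have : ∀ᶠ i : Finset Γ × ℕ in atTop, ({g}, 0) ≤ i := eventually_ge_atTop _
        filter_upwards [this] with i hi
        have hg : g ∈ i.1 := by
          have := hi.1
          simpa using this
        have hN := hcN i
        have hk := Q_inv (c i) g A
        have hF := hcF i g hg
        simp only [hq, Real.norm_eq_abs]
        rw [← sub_div, abs_div, abs_of_pos hN, div_le_iff₀ hN]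
        refine hk.trans ?_
        calc Real.sqrt (∑ᶠ S : Finset Γ, ((c i) (S.image fun h => g * h) - (c i) S) ^ 2) *
              Real.sqrt (4 * Nc (c i))
            ≤ Real.sqrt ((1 / ((i.2 : ℝ) + 1)) * Nc (c i)) * Real.sqrt (4 * Nc (c i)) :=
              mul_le_mul_of_nonneg_right (Real.sqrt_le_sqrt hF) (Real.sqrt_nonneg _)
          _ = 2 * Real.sqrt (1 / ((i.2 : ℝ) + 1)) * Nc (c i) := by
              rw [Real.sqrt_mul (by positivity), Real.sqrt_mul (by norm_num)]
              have h4 : Real.sqrt 4 = 2 := by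
                rw [show (4 : ℝ) = 2 ^ 2 by norm_num]
                exact Real.sqrt_sq (by norm_num)
              rw [h4]
              have := Real.mul_self_sqrt hN.le
              linear_combination (2 * Real.sqrt (1 / ((i.2 : ℝ) + 1))) * this
      have hz : Tendsto (fun i : Finset Γ × ℕ => 2 * Real.sqrt (1 / ((i.2 : ℝ) + 1))) U (𝓝 0) := by
        have hs : Tendsto (fun i : Finset Γ × ℕ => i.2) U atTop := by
          have : Tendsto (fun i : Finset Γ × ℕ => i.2) atTop atTop := by
            rw [← prod_atTop_atTop_eq]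
            exact tendsto_snd
          exact this.mono_left hUle
        have ht : Tendsto (fun n : ℕ => 2 * Real.sqrt (1 / ((n : ℝ) + 1))) atTop (𝓝 0) := by
          have h0 := (tendsto_one_div_add_atTop_nhds_zero_nat (𝕜 := ℝ)).sqrt.const_mul 2
          simpa using h0
        exact ht.comp hs
      exact squeeze_zero_norm' hb hz
    have h2 := (hm ((fun h => g * h) '' A)).sub (hm A)
    have h3 := tendsto_nhds_unique h2 h1
    linarith

end Run7.h554.SE
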